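import Pool.Agent.Helper49.NF.Goals

/-!
# Project NF (MP_0130f7_co), packet N1A
-/

set_option autoImplicit false

namespace Pool.Agent.Helper39.NF

open Finset
open Pool.Agent.Helper49.NF

/-- the bound for `Ma` -/
lemma Ma_le (n f j : ℕ) (y : ℝ) (hy : 1 ≤ y) (hn : (n : ℝ) = y ^ 5) (hf : (f : ℝ) ≤ y ^ 4)
    (hj : 3 ≤ j) : (Ma n f j : ℝ) ≤ ((j : ℝ) + 1) ^ 2 * y ^ (4 * j - 4) := by
  unfold Ma
  push_cast
  have hy0 : 0 ≤ y := by linarith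
  have h1 : ∀ p ∈ range (j + 1), ∀ r ∈ range (j + 1),
      (if p + 2 * r ≤ j then (f : ℝ) ^ (p - 1) * (n : ℝ) ^ r else 0) ≤ y ^ (4 * j - 4) := by
    intro p _ r _
    split_ifs with h
    · calc (f : ℝ) ^ (p - 1) * (n : ℝ) ^ r ≤ (y ^ 4) ^ (p - 1) * (y ^ 5) ^ r := by
            rw [hn]
            exact mul_le_mul_of_nonneg_right
              (pow_le_pow_left₀ (Nat.cast_nonneg _) hf _) (by positivity)
        _ = y ^ (4 * (p - 1) + 5 * r) := by rw [← pow_mul, ← pow_mul, ← pow_add]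
        _ ≤ y ^ (4 * j - 4) := pow_le_pow_right₀ hy (by omega)
    · positivity
  have h2 : ∀ p ∈ range (j + 1), (∑ r ∈ range (j + 1),
      if p + 2 * r ≤ j then (f : ℝ) ^ (p - 1) * (n : ℝ) ^ r else 0) ≤
      ((j : ℝ) + 1) * y ^ (4 * j - 4) := by
    intro p hp
    have := Finset.sum_le_card_nsmul (range (j + 1)) _ _ (h1 p hp)
    rw [card_range, nsmul_eq_mul] at this
    push_cast at this
    exact this
  have h3 := Finset.sum_le_card_nsmul (range (j + 1)) _ _ h2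
  rw [card_range, nsmul_eq_mul] at h3
  push_cast at h3
  refine h3.trans (le_of_eq ?_)
  ring

/-- lower bound for the binomial coefficient -/
lemma choose_low (z m : ℕ) : ((z + 1 - m : ℕ) : ℝ) ^ m ≤ (z.choose m : ℝ) * (m : ℝ) ^ m := by
  have h1 := Nat.pow_le_choose (α := ℝ) m z
  rw [div_le_iff₀ (by positivity)] at h1
  refine h1.trans ?_
  apply mul_le_mul_of_nonneg_left _ (Nat.cast_nonneg _)
  exact_mod_cast Nat.factorial_le_pow m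

/-- the numerical inequality -/
lemma num (u : ℝ) (m : ℕ) (K : ℝ) (hu : 50 * 8 ^ 14 ≤ u) (hm : 3 ≤ m) (hmu : (m : ℝ) ≤ u ^ 5)
    (hK0 : 0 ≤ K) (hK : K ≤ u) :
    50 * 8 ^ m * K ^ (2 * m + 1) * (m : ℝ) ^ (3 * m + 4) ≤ u ^ (20 * (m - 1)) := by
  have hu1 : 1 ≤ u := le_trans (by norm_num) hu
  have hu0 : 0 ≤ u := by linarith
  have hKp : K ^ (2 * m + 1) ≤ u ^ (2 * m + 1) := pow_le_pow_left₀ hK0 hK _
  rcases lt_or_ge m 14 with h14 | h14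
  · have h1 : (m : ℝ) ^ (3 * m + 4) ≤ 13 ^ 43 := by
      calc (m : ℝ) ^ (3 * m + 4) ≤ 13 ^ (3 * m + 4) :=
            pow_le_pow_left₀ (Nat.cast_nonneg _) (by exact_mod_cast (by omega : m ≤ 13)) _
        _ ≤ 13 ^ 43 := pow_le_pow_right₀ (by norm_num) (by omega)
    have h2 : (8 : ℝ) ^ m ≤ 8 ^ 13 := pow_le_pow_right₀ (by norm_num) (by omega)
    have h3 : K ^ (2 * m + 1) ≤ u ^ 27 := hKp.trans (pow_le_pow_right₀ hu1 (by omega))
    have h4 : (50 * 8 ^ 13 * 13 ^ 43 : ℝ) ≤ u ^ 13 := by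
      calc (50 * 8 ^ 13 * 13 ^ 43 : ℝ) ≤ (50 * 8 ^ 14) ^ 13 := by norm_num
        _ ≤ u ^ 13 := pow_le_pow_left₀ (by positivity) hu _
    calc 50 * 8 ^ m * K ^ (2 * m + 1) * (m : ℝ) ^ (3 * m + 4)
        ≤ 50 * 8 ^ 13 * u ^ 27 * 13 ^ 43 := by gcongr
      _ = (50 * 8 ^ 13 * 13 ^ 43) * u ^ 27 := by ring
      _ ≤ u ^ 13 * u ^ 27 := mul_le_mul_of_nonneg_right h4 (by positivity)
      _ = u ^ 40 := by rw [← pow_add]
      _ ≤ u ^ (20 * (m - 1)) := pow_le_pow_right₀ hu1 (by omega)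
  · obtain ⟨t, rfl⟩ := Nat.exists_eq_add_of_le h14
    have h1 : ((14 + t : ℕ) : ℝ) ^ (3 * (14 + t) + 4) ≤ u ^ (5 * (3 * (14 + t) + 4)) := by
      rw [pow_mul]
      exact pow_le_pow_left₀ (Nat.cast_nonneg _) hmu _
    have h2 : (50 * 8 ^ (14 + t) : ℝ) ≤ u ^ (1 + 3 * t) := by
      rw [pow_add, pow_add, pow_one, ← mul_assoc]
      have h3 : (8 : ℝ) ^ t ≤ u ^ (3 * t) := by
        rw [pow_mul]
        apply pow_le_pow_left₀ (by norm_num)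
        calc (8 : ℝ) ≤ 50 * 8 ^ 14 := by norm_num
          _ ≤ u := hu
          _ = u ^ 1 := (pow_one u).symm
          _ ≤ u ^ 3 := pow_le_pow_right₀ hu1 (by norm_num)
      exact mul_le_mul hu h3 (by positivity) hu0
    calc 50 * 8 ^ (14 + t) * K ^ (2 * (14 + t) + 1) * ((14 + t : ℕ) : ℝ) ^ (3 * (14 + t) + 4)
        ≤ u ^ (1 + 3 * t) * u ^ (2 * (14 + t) + 1) * u ^ (5 * (3 * (14 + t) + 4)) := by
          gcongr
      _ = u ^ (1 + 3 * t + (2 * (14 + t) + 1) + 5 * (3 * (14 + t) + 4)) := by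
          rw [← pow_add, ← pow_add]
      _ = u ^ (20 * (14 + t - 1)) := by
          congr 1
          omega

theorem goal_N1A : Goal_N1A := by
  obtain ⟨U, hU⟩ : ∃ U : ℕ, U = 50 * 8 ^ 14 := ⟨_, rfl⟩
  refine ⟨U ^ 100, ?_⟩
  intro n hn m K f hm hmn hK1 hKn hfn
  obtain ⟨u, hu0, hu⟩ : ∃ u : ℝ, 0 ≤ u ∧ u ^ 100 = n := by
    refine ⟨(n : ℝ) ^ ((1 : ℝ) / 100), by positivity, ?_⟩
    rw [← Real.rpow_natCast, ← Real.rpow_mul (Nat.cast_nonneg n)]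
    norm_num
  have hUu : (50 * 8 ^ 14 : ℝ) ≤ u := by
    have h1 : (U : ℝ) ^ 100 ≤ u ^ 100 := by
      rw [hu]
      exact_mod_cast hn
    have h2 : (U : ℝ) ≤ u := le_of_pow_le_pow_left₀ (by norm_num) hu0 h1
    calc (50 * 8 ^ 14 : ℝ) = (U : ℝ) := by rw [hU]; norm_num
      _ ≤ u := h2
  have hu1 : 1 ≤ u := le_trans (by norm_num) hUu
  have hKu : (K : ℝ) ≤ u := by
    apply le_of_pow_le_pow_left₀ (n := 100) (by norm_num) hu0
    rw [hu]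
    exact_mod_cast hKn
  have hmu : (m : ℝ) ≤ u ^ 5 := by
    apply le_of_pow_le_pow_left₀ (n := 20) (by norm_num) (by positivity)
    rw [← pow_mul, hu]
    exact_mod_cast hmn
  set y : ℝ := u ^ 20 with hy
  have hy1 : 1 ≤ y := one_le_pow₀ hu1
  have hyn : (n : ℝ) = y ^ 5 := by rw [hy, ← pow_mul, hu]
  have hfy : (f : ℝ) ≤ y ^ 4 := by
    apply le_of_pow_le_pow_left₀ (n := 5) (by norm_num) (by positivity)
    rw [← pow_mul, show 4 * 5 = 5 * 4 by norm_num, pow_mul, ← hyn]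
    exact_mod_cast hfn
  have hm0 : (3 : ℝ) ≤ m := by exact_mod_cast hm
  have hK0 : (1 : ℝ) ≤ K := by exact_mod_cast hK1
  -- sizes
  have hbig : 64 * (K : ℝ) ^ 2 * (m : ℝ) ^ 3 ≤ n := by
    calc 64 * (K : ℝ) ^ 2 * (m : ℝ) ^ 3 ≤ u * u ^ 2 * (u ^ 5) ^ 3 := by
          have : (64 : ℝ) ≤ u := le_trans (by norm_num) hUu
          gcongr
      _ = u ^ 18 := by ring
      _ ≤ u ^ 100 := pow_le_pow_right₀ hu1 (by norm_num)
      _ = n := hu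
  have hbig' : 64 * K ^ 2 * m ^ 3 ≤ n := by exact_mod_cast hbig
  have hn20 : 20 * m ≤ n := by
    refine le_trans ?_ hbig'
    have h1 : 1 ≤ K ^ 2 := Nat.one_le_pow _ _ hK1
    have h2 : m ≤ m ^ 3 := Nat.le_self_pow (by norm_num) m
    calc 20 * m ≤ 64 * 1 * m ^ 3 := by omega
      _ ≤ 64 * K ^ 2 * m ^ 3 := by gcongr
  -- the first factor
  set q : ℕ := n / (4 * m) with hq
  have hq1 : (n : ℝ) ≤ 5 * m * q := by
    have h1 : n < 4 * m * (q + 1) := Nat.lt_mul_div_succ n (by omega)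
    have h2 : 5 ≤ q := by
      rw [hq, Nat.le_div_iff_mul_le (by omega)]
      omega
    have h3 : n ≤ 5 * m * q := by nlinarith
    exact_mod_cast h3
  -- the second factor
  set z : ℕ := n / (4 * (K * (m + 1)) ^ 2) with hz
  have hz1 : n < 4 * (K * (m + 1)) ^ 2 * (z + 1) := Nat.lt_mul_div_succ n (by positivity)
  have hD : (n : ℝ) ≤ 8 * (K : ℝ) ^ 2 * (m : ℝ) ^ 2 * ((z + 1 - m : ℕ) : ℝ) := by
    have h1 : (n : ℝ) < 4 * ((K : ℝ) * (m + 1)) ^ 2 * (z + 1) := by exact_mod_cast hz1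
    have h2 : 9 * ((m : ℝ) + 1) ^ 2 ≤ 16 * (m : ℝ) ^ 2 := by nlinarith
    have h3 : 9 * (n : ℝ) ≤ 64 * (K : ℝ) ^ 2 * (m : ℝ) ^ 2 * (z + 1) := by
      have h4 : 9 * (4 * ((K : ℝ) * (m + 1)) ^ 2 * (z + 1)) =
          4 * (K : ℝ) ^ 2 * (z + 1) * (9 * ((m : ℝ) + 1) ^ 2) := by ring
      have h5 : 4 * (K : ℝ) ^ 2 * (z + 1) * (9 * ((m : ℝ) + 1) ^ 2) ≤
          4 * (K : ℝ) ^ 2 * (z + 1) * (16 * (m : ℝ) ^ 2) := by gcongr
      nlinarith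
    have h6 : ((z : ℝ) + 1) - m ≤ ((z + 1 - m : ℕ) : ℝ) := by
      have : z + 1 ≤ (z + 1 - m) + m := by omega
      have h7 : ((z + 1 : ℕ) : ℝ) ≤ ((z + 1 - m : ℕ) : ℝ) + m := by exact_mod_cast this
      push_cast at h7
      linarith
    have h8 : 8 * (n : ℝ) ≤ 64 * (K : ℝ) ^ 2 * (m : ℝ) ^ 2 * (((z : ℝ) + 1) - m) := by
      have : 64 * (K : ℝ) ^ 2 * (m : ℝ) ^ 2 * (((z : ℝ) + 1) - m) =
        64 * (K : ℝ) ^ 2 * (m : ℝ) ^ 2 * (z + 1) - 64 * (K : ℝ) ^ 2 * (m : ℝ) ^ 3 := by ring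
      linarith
    have h9 : 64 * (K : ℝ) ^ 2 * (m : ℝ) ^ 2 * (((z : ℝ) + 1) - m) ≤
        64 * (K : ℝ) ^ 2 * (m : ℝ) ^ 2 * ((z + 1 - m : ℕ) : ℝ) := by gcongr
    linarith
  have hC : (n : ℝ) ^ m ≤ (8 * (K : ℝ) ^ 2 * (m : ℝ) ^ 3) ^ m * (z.choose m : ℝ) := by
    calc (n : ℝ) ^ m ≤ (8 * (K : ℝ) ^ 2 * (m : ℝ) ^ 2 * ((z + 1 - m : ℕ) : ℝ)) ^ m :=
          pow_le_pow_left₀ (Nat.cast_nonneg _) hD _
      _ = (8 * (K : ℝ) ^ 2 * (m : ℝ) ^ 2) ^ m * ((z + 1 - m : ℕ) : ℝ) ^ m := by rw [mul_pow]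
      _ ≤ (8 * (K : ℝ) ^ 2 * (m : ℝ) ^ 2) ^ m * ((z.choose m : ℝ) * (m : ℝ) ^ m) :=
          mul_le_mul_of_nonneg_left (choose_low z m) (by positivity)
      _ = (8 * (K : ℝ) ^ 2 * (m : ℝ) ^ 3) ^ m * (z.choose m : ℝ) := by
          rw [show 8 * (K : ℝ) ^ 2 * (m : ℝ) ^ 3 = (8 * (K : ℝ) ^ 2 * (m : ℝ) ^ 2) * m by ring,
            mul_pow (8 * (K : ℝ) ^ 2 * (m : ℝ) ^ 2)]
          ring
  -- the left side
  have hMa1 := Ma_le n f (m + 1) y hy1 hyn hfy (by omega)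
  have hMa0 := Ma_le n f m y hy1 hyn hfy hm
  have hL : (((m + 1) * (K * n * Ma n f (m + 1)) + (n - m) * (K * n * Ma n f m) : ℕ) : ℝ) ≤
      2 * K * ((m : ℝ) + 2) ^ 3 * y ^ (4 * m + 6) := by
    have hsub : ((n - m : ℕ) : ℝ) ≤ n := by exact_mod_cast Nat.sub_le n m
    push_cast at hMa1
    push_cast
    have e1 : 4 * (m + 1) - 4 = 4 * m := by omega
    rw [e1] at hMa1
    have hp1 : y ^ (4 * m + 5) ≤ y ^ (4 * m + 6) := pow_le_pow_right₀ hy1 (by omega)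
    have a1 : ((m : ℝ) + 1) * (K * n * (Ma n f (m + 1) : ℝ)) ≤
        K * ((m : ℝ) + 2) ^ 3 * y ^ (4 * m + 6) := by
      calc ((m : ℝ) + 1) * (K * n * (Ma n f (m + 1) : ℝ))
          ≤ ((m : ℝ) + 1) * (K * n * (((m : ℝ) + 1 + 1) ^ 2 * y ^ (4 * m))) := by gcongr
        _ = K * (((m : ℝ) + 1) * ((m : ℝ) + 2) ^ 2) * y ^ (4 * m + 5) := by
            rw [hyn, pow_add]
            ring
        _ ≤ K * (((m : ℝ) + 2) * ((m : ℝ) + 2) ^ 2) * y ^ (4 * m + 6) := by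
            gcongr
            linarith
        _ = K * ((m : ℝ) + 2) ^ 3 * y ^ (4 * m + 6) := by ring
    have a2 : ((n - m : ℕ) : ℝ) * (K * n * (Ma n f m : ℝ)) ≤
        K * ((m : ℝ) + 2) ^ 3 * y ^ (4 * m + 6) := by
      calc ((n - m : ℕ) : ℝ) * (K * n * (Ma n f m : ℝ))
          ≤ (n : ℝ) * (K * n * (((m : ℝ) + 1) ^ 2 * y ^ (4 * m - 4))) := by gcongr
        _ = K * ((m : ℝ) + 1) ^ 2 * y ^ (4 * m + 6) := by
            have e2 : 4 * m + 6 = 5 + 5 + (4 * m - 4) := by omega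
            rw [e2, pow_add, pow_add, hyn]
            ring
        _ ≤ K * ((m : ℝ) + 2) ^ 3 * y ^ (4 * m + 6) := by
            gcongr
            nlinarith
    linarith
  -- conclusion
  have hnum := num u m K hUu hm hmu (by linarith) hKu
  have hfin : 2 * K * ((m : ℝ) + 2) ^ 3 * y ^ (4 * m + 6) ≤ (q : ℝ) * (z.choose m : ℝ) := by
    have hpos : 0 < 5 * (m : ℝ) * (8 * (K : ℝ) ^ 2 * (m : ℝ) ^ 3) ^ m := by positivity
    refine le_of_mul_le_mul_left ?_ hpos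
    have b1 : (n : ℝ) * (n : ℝ) ^ m ≤ (5 * m * q) *
        ((8 * (K : ℝ) ^ 2 * (m : ℝ) ^ 3) ^ m * (z.choose m : ℝ)) :=
      mul_le_mul hq1 hC (by positivity) (by positivity)
    have b2 : 27 * ((m : ℝ) + 2) ^ 3 ≤ 125 * (m : ℝ) ^ 3 := by
      have : 3 * ((m : ℝ) + 2) ≤ 5 * m := by linarith
      have h3 := pow_le_pow_left₀ (by positivity) this 3
      nlinarith
    have b3 : ((m : ℝ) + 2) ^ 3 ≤ 5 * (m : ℝ) ^ 3 := by
      have : 0 ≤ (m : ℝ) ^ 3 := by positivity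
      linarith
    calc 5 * (m : ℝ) * (8 * (K : ℝ) ^ 2 * (m : ℝ) ^ 3) ^ m *
          (2 * K * ((m : ℝ) + 2) ^ 3 * y ^ (4 * m + 6))
        ≤ 5 * (m : ℝ) * (8 * (K : ℝ) ^ 2 * (m : ℝ) ^ 3) ^ m *
          (2 * K * (5 * (m : ℝ) ^ 3) * y ^ (4 * m + 6)) := by gcongr
      _ = (50 * 8 ^ m * (K : ℝ) ^ (2 * m + 1) * (m : ℝ) ^ (3 * m + 4)) * y ^ (4 * m + 6) := by
          rw [mul_pow, mul_pow, ← pow_mul, ← pow_mul, pow_add (K : ℝ), pow_add (m : ℝ), pow_one,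
            mul_comm 3 m, mul_comm 2 m]
          ring
      _ ≤ u ^ (20 * (m - 1)) * y ^ (4 * m + 6) :=
          mul_le_mul_of_nonneg_right hnum (by positivity)
      _ = (n : ℝ) * (n : ℝ) ^ m := by
          rw [hyn, hy, ← pow_mul, ← pow_mul, ← pow_mul, ← pow_add, ← pow_add]
          congr 1
          omega
      _ ≤ (5 * m * q) * ((8 * (K : ℝ) ^ 2 * (m : ℝ) ^ 3) ^ m * (z.choose m : ℝ)) := b1
      _ = 5 * (m : ℝ) * (8 * (K : ℝ) ^ 2 * (m : ℝ) ^ 3) ^ m * ((q : ℝ) * (z.choose m : ℝ)) := by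
          ring
  have := hL.trans hfin
  exact_mod_cast this

end Pool.Agent.Helper39.NF
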