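import Pool.Agent.Helper49.NF.Goals

/-!
# Project NF (MP_0130f7_co), packet N1D
-/

set_option autoImplicit false

namespace Pool.Agent.Helper39.NF

open Finset
open Pool.Agent.Helper49.NF

theorem goal_N1D (hLOG : Goal_LOG) : Goal_N1D := by
  obtain ⟨c, hc⟩ : ∃ c : ℕ, c = 1800 ^ 100 := ⟨_, rfl⟩
  obtain ⟨n₀, hn₀⟩ := hLOG c 200
  refine ⟨n₀ + 2, ?_⟩
  intro n hn m K h hnm hmn hK1 hKn hh
  have hlog := hn₀ n (by omega)
  set l := Lg n with hl
  have hnl : n ≤ 2 ^ l := Nat.le_pow_clog (by norm_num) n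
  have hl1 : 1 ≤ l := by
    rcases Nat.eq_zero_or_pos l with h0 | h0
    · rw [h0] at hnl
      omega
    · exact h0
  have hKl : K ≤ 2 ^ l := (Nat.le_self_pow (by norm_num) K).trans (hKn.trans hnl)
  -- `m` is large
  have hm : 1800 * K * (l + 1) ^ 2 < m := by
    apply lt_of_pow_lt_pow_left₀ 100 (Nat.zero_le _)
    have h1 : (1800 * K * (l + 1) ^ 2) ^ 100 = c * (l + 1) ^ 200 * K ^ 100 := by
      rw [hc, mul_pow, mul_pow, ← pow_mul, mul_right_comm]
    have h2 : c * (l + 1) ^ 200 * K ^ 100 ≤ n * n := Nat.mul_le_mul hlog hKn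
    have h3 : n * n ≤ n ^ 5 := by
      rw [← pow_two]
      exact Nat.pow_le_pow_right (by omega) (by norm_num)
    have h4 : n ^ 5 < (m ^ 20) ^ 5 := Nat.pow_lt_pow_left hnm (by norm_num)
    rw [← pow_mul] at h4
    rw [h1]
    exact lt_of_le_of_lt (h2.trans h3) h4
  clear hlog hn₀ hc hnm hKn hn c
  have hKn2 : K * n ≤ 2 ^ (2 * l) := by
    rw [two_mul, pow_add]
    exact Nat.mul_le_mul hKl hnl
  have hn1 : n + 1 ≤ 2 ^ (l + 1) := by
    rw [pow_succ]
    omega
  have hn2 : n + 2 ≤ 2 ^ (l + 2) := by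
    rw [pow_add]
    omega
  have hKll : l + 1 ≤ K * (l + 1) ^ 2 := by
    have h1 : l + 1 ≤ (l + 1) ^ 2 := Nat.le_self_pow (by norm_num) _
    calc l + 1 ≤ 1 * (l + 1) ^ 2 := by rw [one_mul]; exact h1
      _ ≤ K * (l + 1) ^ 2 := Nat.mul_le_mul_right _ hK1
  refine ⟨?_, ?_⟩
  · calc 2 * (n + 1) * (K * n * (n + 2) ^ 2 * n)
        ≤ 2 * 2 ^ (l + 1) * (2 ^ (2 * l) * (2 ^ (l + 2)) ^ 2 * 2 ^ l) := by gcongr
      _ = 2 ^ (1 + (l + 1) + (2 * l + (l + 2) * 2 + l)) := by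
          rw [← pow_mul, pow_add 2 (1 + (l + 1)), pow_add 2 1, pow_one,
            pow_add 2 (2 * l + (l + 2) * 2), pow_add 2 (2 * l)]
      _ ≤ 2 ^ m := by
          apply Nat.pow_le_pow_right (by norm_num)
          nlinarith
  · set e := K * (m + 1) / (h + 1) with he
    have he1 : 8 * l * e ≤ m + 1 := by
      have h1 : e * (h + 1) ≤ K * (m + 1) := Nat.div_mul_le_self _ _
      have h2 : K * (8 * l * e) ≤ K * (m + 1) := by
        refine le_trans ?_ h1
        rw [hh]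
        nlinarith
      exact Nat.le_of_mul_le_mul_left h2 hK1
    have he2 : 4 * ((l + 1) * e) ≤ m + 1 := by
      refine le_trans ?_ he1
      have : l + 1 ≤ 2 * l := by omega
      calc 4 * ((l + 1) * e) ≤ 4 * (2 * l * e) := by gcongr
        _ = 8 * l * e := by ring
    have hlh : 100 * (l * (h + 10)) ≤ m := by
      rw [hh]
      have h3 : l * (8 * K * l + 10) ≤ 18 * (K * (l + 1) ^ 2) := by nlinarith
      nlinarith
    calc 64 * (K * n * ((K * n) ^ (h + 2) * (n + 1) ^ e))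
        ≤ 64 * (2 ^ (2 * l) * ((2 ^ (2 * l)) ^ (h + 2) * (2 ^ (l + 1)) ^ e)) := by gcongr
      _ = 2 ^ (6 + (2 * l + (2 * l * (h + 2) + (l + 1) * e))) := by
          rw [← pow_mul, ← pow_mul, pow_add 2 6, pow_add 2 (2 * l), pow_add 2 (2 * l * (h + 2))]
          norm_num
      _ ≤ 2 ^ (m + 1) := by
          apply Nat.pow_le_pow_right (by norm_num)
          have h4 : 2 * l + 2 * l * (h + 2) = 2 * (l * (h + 3)) := by ring
          have h5 : l * (h + 3) + 7 * l = l * (h + 10) := by ring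
          omega

end Pool.Agent.Helper39.NF
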