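import Pool.Agent.Helper61.BT.Goals

/-!
# Project NF, Part 2: finitely generated groups without free subgroups of rank two

(helper57's theorem.) No cut distinguishes two elements.
-/

set_option autoImplicit false

namespace Pool.Agent.Helper39.NF

open Pool.Agent.Helper27.VF Pool.Agent.Helper61.BT

universe u

/-- Ping-pong for a symmetric and transitive relation. -/
theorem pingpong {A : Type u} [Group A] (R : A → A → Prop) (symm : ∀ x y, R x y → R y x)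
    (trans : ∀ x y z, R x y → R y z → R x z)
    (hi : ∀ a y, R a a → ¬ R a⁻¹ y → R (a * y) a) (f : A)
    (hf : ∀ x y, R x y ↔ R (f * x) (f * y)) (b : A) (hb : R b b) (hb' : R b⁻¹ b⁻¹)
    (h0 : ¬ R b b⁻¹) (h1 : ¬ R (f * b) b) (h2 : ¬ R (f * b) b⁻¹) (h3 : ¬ R (f * b⁻¹) b)
    (h4 : ¬ R (f * b⁻¹) b⁻¹) :
    ∃ φ : FreeGroup (Fin 2) →* A, Function.Injective φ := by
  let a : ULift.{u} (Fin 2) → A := fun i => ![b, f * b * f⁻¹] i.down
  let X : ULift.{u} (Fin 2) → Set A := fun i => ![{x | R b x}, {x | R (f * b) x}] i.down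
  let Y : ULift.{u} (Fin 2) → Set A := fun i => ![{x | R b⁻¹ x}, {x | R (f * b⁻¹) x}] i.down
  have dj : ∀ u v : A, ¬ R u v → Disjoint {x | R u x} {x | R v x} := by
    intro u v huv
    rw [Set.disjoint_left]
    intro x hx hx'
    exact huv (trans u x v hx (symm _ _ hx'))
  have h0f : ¬ R (f * b) (f * b⁻¹) := fun h => h0 ((hf _ _).2 h)
  have ns : ∀ x y, ¬ R x y → ¬ R y x := fun x y h h' => h (symm _ _ h')
  refine ⟨(FreeGroup.lift a).comp
    (FreeGroup.freeGroupCongr (Equiv.ulift.{u, 0} (α := Fin 2)).symm).toMonoidHom, ?_⟩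
  rw [MonoidHom.coe_comp]
  refine Function.Injective.comp ?_ (MulEquiv.injective _)
  refine FreeGroup.injective_lift_of_ping_pong a X Y ?_ ?_ ?_ ?_ ?_ ?_
  · rintro ⟨i⟩
    fin_cases i
    · exact ⟨b, hb⟩
    · exact ⟨f * b, (hf _ _).1 hb⟩
  · rintro ⟨i⟩ ⟨j⟩ hij
    fin_cases i <;> fin_cases j
    · exact absurd rfl hij
    · exact dj _ _ (ns _ _ h1)
    · exact dj _ _ h1
    · exact absurd rfl hij
  · rintro ⟨i⟩ ⟨j⟩ hij
    fin_cases i <;> fin_cases j
    · exact absurd rfl hij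
    · exact dj _ _ (ns _ _ h4)
    · exact dj _ _ h4
    · exact absurd rfl hij
  · rintro ⟨i⟩ ⟨j⟩
    fin_cases i <;> fin_cases j
    · exact dj _ _ h0
    · exact dj _ _ (ns _ _ h3)
    · exact dj _ _ h2
    · exact dj _ _ h0f
  · rintro ⟨i⟩
    fin_cases i
    · rintro _ ⟨x, hx, rfl⟩
      exact symm _ _ (hi b x hb hx)
    · rintro _ ⟨x, hx, rfl⟩
      have hx' : ¬ R (f * b⁻¹) x := hx
      have e1 : ¬ R b⁻¹ (f⁻¹ * x) := by
        intro h
        apply hx'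
        have := (hf _ _).1 h
        rwa [mul_inv_cancel_left] at this
      have e2 := (hf _ _).1 (hi b (f⁻¹ * x) hb e1)
      have e3 : R (f * b) (f * b * f⁻¹ * x) := by
        have e4 : f * b * f⁻¹ * x = f * (b * (f⁻¹ * x)) := by group
        rw [e4]
        exact symm _ _ e2
      exact e3
  · rintro ⟨i⟩
    have hi' : ∀ y, ¬ R b y → R (b⁻¹ * y) b⁻¹ := by
      intro y hy
      apply hi b⁻¹ y hb'
      rwa [inv_inv]
    fin_cases i
    · rintro _ ⟨x, hx, rfl⟩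
      exact symm _ _ (hi' x hx)
    · rintro _ ⟨x, hx, rfl⟩
      have hx' : ¬ R (f * b) x := hx
      have e1 : ¬ R b (f⁻¹ * x) := by
        intro h
        apply hx'
        have := (hf _ _).1 h
        rwa [mul_inv_cancel_left] at this
      have e2 := (hf _ _).1 (hi' (f⁻¹ * x) e1)
      have e3 : R (f * b⁻¹) ((f * b * f⁻¹)⁻¹ * x) := by
        have e4 : (f * b * f⁻¹)⁻¹ * x = f * (b⁻¹ * (f⁻¹ * x)) := by group
        rw [e4]
        exact symm _ _ e2
      exact e3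

variable {A W : Type u} [Group A] [MulAction A W] {G G₀ : SimpleGraph W} {w : W}
  {p : Ultrafilter W} {k : ℕ}

/-- `x` and `y` are in the same class outside `BB`. -/
def R (G : SimpleGraph W) (p : Ultrafilter W) (k : ℕ) (x y : A) : Prop :=
  ∃ d ∈ DD A G p k, Inn p x d.2 ∧ Inn p y d.2

theorem R.symm {x y : A} (h : R G p k x y) : R G p k y x := by
  obtain ⟨d, hd, h1, h2⟩ := h
  exact ⟨d, hd, h2, h1⟩

theorem uniq (hOra : OraStmt.{u}) (h : Stg A G G₀ w p) (hk : Mn A G p k) {x : A}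
    {d e : Set W × Set W} (hd : d ∈ DD A G p k) (he : e ∈ DD A G p k) (h1 : Inn p x d.2)
    (h2 : Inn p x e.2) : d = e := by
  by_contra hne
  exact (hOra A W G G₀ w p h k hk).2 d hd e he hne x ⟨h1, h2⟩

theorem R.trans (hOra : OraStmt.{u}) (h : Stg A G G₀ w p) (hk : Mn A G p k) {x y z : A}
    (h1 : R G p k x y) (h2 : R G p k y z) : R G p k x z := by
  obtain ⟨d, hd, hx, hy⟩ := h1
  obtain ⟨e, he, hy', hz⟩ := h2
  have := uniq hOra h hk hd he hy hy'
  subst this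
  exact ⟨d, hd, hx, hz⟩

theorem R_self (hOrb : OrbStmt.{u}) (h : Stg A G G₀ w p) (hk : Mn A G p k) {x : A} :
    R G p k x x ↔ x ∉ BB A G p k := by
  have ho := hOrb A W G G₀ w p h k hk
  constructor
  · rintro ⟨d, hd, h1, -⟩ hx
    exact (inn_snd h hd.1.1).1 h1 (ho.1 x hx d hd)
  · intro hx
    obtain ⟨d, hd, h1⟩ := ho.2.1 x hx
    exact ⟨d, hd, h1, h1⟩

theorem R_mul (hOra : OraStmt.{u}) (hOrb : OrbStmt.{u}) (h : Stg A G G₀ w p)
    (hk : Mn A G p k) {a y : A} (ha : R G p k a a) (hy : ¬ R G p k a⁻¹ y) :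
    R G p k (a * y) a := by
  have ho := hOrb A W G G₀ w p h k hk
  have ha' : a⁻¹ ∉ BB A G p k := by
    rw [inv_mem_iff]
    exact (R_self hOrb h hk).1 ha
  obtain ⟨d, hd, h1⟩ := ho.2.1 _ ha'
  have h2 : Inn p y d.1 := by
    by_contra hc
    exact hy ⟨d, hd, h1, (inn_snd h hd.1.1).2 hc⟩
  have hc : ((tr a d).2, (tr a d).1) ∈ SS A G p k := SS.swap (SS.tr h hd.1 a)
  have h3 : Inn p (1 : A) ((tr a d).2, (tr a d).1).1 := by
    change Inn p (1 : A) (tr a d).2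
    rw [inn_tr_snd, mul_one]
    exact h1
  obtain ⟨d', hd', hle⟩ := (hOra A W G G₀ w p h k hk).1 _ hc h3
  refine ⟨d', hd', inn_mono hle.2 ?_, inn_mono hle.2 ?_⟩
  · change Inn p (a * y) (tr a d).1
    rw [inn_tr_fst, inv_mul_cancel_left]
    exact h2
  · change Inn p a (tr a d).1
    rw [inn_tr_fst, inv_mul_cancel]
    exact hd.2.1

theorem R_smul (hOrb : OrbStmt.{u}) (h : Stg A G G₀ w p) (hk : Mn A G p k) {f : A}
    (hf : f ∈ BB A G p k) {x y : A} (hxy : R G p k x y) : R G p k (f * x) (f * y) := by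
  obtain ⟨d, hd, h1, h2⟩ := hxy
  refine ⟨tr f d, (hOrb A W G G₀ w p h k hk).2.2.2 f hf d hd, ?_, ?_⟩
  · rwa [inn_tr_snd, inv_mul_cancel_left]
  · rwa [inn_tr_snd, inv_mul_cancel_left]

theorem R_smul_iff (hOrb : OrbStmt.{u}) (h : Stg A G G₀ w p) (hk : Mn A G p k) {f : A}
    (hf : f ∈ BB A G p k) {x y : A} : R G p k x y ↔ R G p k (f * x) (f * y) := by
  refine ⟨R_smul hOrb h hk hf, fun h1 => ?_⟩
  have := R_smul hOrb h hk ((BB A G p k).inv_mem hf) h1
  rwa [inv_mul_cancel_left, inv_mul_cancel_left] at this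

/-- Only finitely many elements of `BB` move one class to another one. -/
theorem fin_bad (hOra : OraStmt.{u}) (hOrb : OrbStmt.{u}) (hFrb : FrbStmt.{u})
    (h : Stg A G G₀ w p) (hk : Mn A G p k) (x y : A) :
    {f : A | f ∈ BB A G p k ∧ R G p k (f * x) y}.Finite := by
  by_cases hx : x ∈ BB A G p k
  · have : {f : A | f ∈ BB A G p k ∧ R G p k (f * x) y} = ∅ := by
      rw [Set.eq_empty_iff_forall_notMem]
      rintro f ⟨hf, hr⟩
      exact (R_self hOrb h hk).1 (hr.trans hOra h hk hr.symm) ((BB A G p k).mul_mem hf hx)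
    rw [this]
    exact Set.finite_empty
  obtain ⟨d, hd, hxd⟩ := (hOrb A W G G₀ w p h k hk).2.1 x hx
  have hst := (hFrb A W G G₀ w p h k hk).2 d hd.1
  rcases Set.eq_empty_or_nonempty {f : A | f ∈ BB A G p k ∧ R G p k (f * x) y} with he | ⟨f₀, hf₀⟩
  · rw [he]
    exact Set.finite_empty
  refine (hst.image (fun g => f₀ * g)).subset ?_
  rintro f ⟨hf, hr⟩
  refine ⟨f₀⁻¹ * f, ?_, by simp⟩
  have key : ∀ g ∈ BB A G p k, Inn p (g * x) (tr g d).2 ∧ tr g d ∈ DD A G p k := by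
    intro g hg
    refine ⟨by rwa [inn_tr_snd, inv_mul_cancel_left], (hOrb A W G G₀ w p h k hk).2.2.2 g hg d hd⟩
  have h1 : R G p k (f * x) (f₀ * x) := hr.trans hOra h hk hf₀.2.symm
  obtain ⟨e, he, h2, h3⟩ := h1
  have h4 := uniq hOra h hk he (key f hf).2 h2 (key f hf).1
  have h5 := uniq hOra h hk he (key f₀ hf₀.1).2 h3 (key f₀ hf₀.1).1
  change tr (f₀⁻¹ * f) d = d
  rw [← tr_tr, ← h4, h5, tr_tr, inv_mul_cancel, tr_one]

/-- `BB` is infinite. -/
theorem bb_infinite (hFac : FacStmt.{u}) (hOrb : OrbStmt.{u}) (hFrb : FrbStmt.{u})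
    (h : Stg A G G₀ w p) (hk : Mn A G p k) : (BB A G p k : Set A).Infinite := by
  intro hB
  obtain ⟨𝓕, h𝓕, -, hcov⟩ := (hFrb A W G G₀ w p h k hk).1
  have hDD : (DD A G p k).Finite := by
    refine (Set.Finite.image2 (fun g f => tr g f) hB h𝓕).subset ?_
    intro d hd
    obtain ⟨f, hf, g, hg, rfl⟩ := hcov d hd
    exact ⟨g, hg, f, hf, rfl⟩
  have hU : (⋂ d ∈ DD A G p k, d.1) ∈ p := by
    rw [← Ultrafilter.mem_coe, Filter.biInter_mem hDD]
    intro d hd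
    exact inn_one.1 hd.2.1
  have hinf : (⋂ d ∈ DD A G p k, d.1 : Set W).Infinite := fun hf => h.nonp _ hf hU
  have hbd : {x | x ∈ (⋂ d ∈ DD A G p k, d.1) ∧
      ∃ y, y ∉ (⋂ d ∈ DD A G p k, d.1) ∧ G₀.Adj x y}.Finite := by
    have h1 : (⋃ d ∈ DD A G p k, ⋃ y ∈ sep d, {x | G₀.Adj y x}).Finite := by
      refine hDD.biUnion fun d hd => ?_
      exact hd.1.1.fin.biUnion fun y _ => h.lf y
    refine h1.subset ?_
    rintro x ⟨hx, y, hy, hxy⟩
    simp only [Set.mem_iInter, not_forall] at hx hy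
    obtain ⟨d, hd, hyd⟩ := hy
    simp only [Set.mem_iUnion]
    refine ⟨d, hd, y, ?_, hxy.symm⟩
    rw [mem_sep]
    exact ⟨hyd, fun hy2 => hd.1.1.no x (hx d hd) y hy2 (h.le hxy)⟩
  have h2 := (hFac A W G G₀ w p h).2.2 _ hinf hbd
  obtain ⟨g, hg, hgB⟩ := (h2.sdiff hB).nonempty
  obtain ⟨d, hd, hgd⟩ := (hOrb A W G G₀ w p h k hk).2.1 g hgB
  have hg1 : g • w ∈ d.1 := by
    have : g • w ∈ (⋂ d ∈ DD A G p k, d.1) := hg
    simp only [Set.mem_iInter] at this
    exact this d hd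
  exact (inn_snd h hd.1.1).1 hgd (fact1 h hd.1.1 hg1)

/-- **Part 2.** If `A` has no free subgroup of rank two then no cut distinguishes two elements. -/
theorem part2 (hFac : FacStmt.{u}) (hOra : OraStmt.{u}) (hOrb : OrbStmt.{u})
    (hFrb : FrbStmt.{u}) (h : Stg A G G₀ w p)
    (hF : ¬ ∃ φ : FreeGroup (Fin 2) →* A, Function.Injective φ) :
    ∀ c, IsCut G c → ∀ a b : A, ¬ Dis p c a b := by
  classical
  by_contra hcon
  push Not at hcon
  obtain ⟨c, hc, a, b, hab⟩ := hcon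
  -- the minimal size
  let P : ℕ → Prop := fun n => ∃ c, IsCut G c ∧ (sep c).ncard = n ∧ ∃ a b : A, Dis p c a b
  have hP : ∃ n, P n := ⟨_, c, hc, rfl, a, b, hab⟩
  obtain ⟨k, hkP, hkmin⟩ : ∃ k, P k ∧ ∀ m, P m → k ≤ m :=
    ⟨Nat.find hP, Nat.find_spec hP, fun m hm => Nat.find_min' hP hm⟩
  have hk : Mn A G p k := fun c hc a b hd => hkmin _ ⟨c, hc, rfl, a, b, hd⟩
  have hSS : (SS A G p k).Nonempty := by
    obtain ⟨c, h1, h2, h3⟩ := hkP
    exact ⟨c, h1, h2, h3⟩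
  have ho := hOrb A W G G₀ w p h k hk
  have hBinf := bb_infinite hFac hOrb hFrb h hk
  have hself : ∀ x : A, R G p k x x ↔ x ∉ BB A G p k := fun x => R_self hOrb h hk
  have htr : ∀ x y z : A, R G p k x y → R G p k y z → R G p k x z :=
    fun x y z h1 h2 => h1.trans hOra h hk h2
  have hsy : ∀ x y : A, R G p k x y → R G p k y x := fun x y h1 => h1.symm
  have hmul : ∀ a y : A, R G p k a a → ¬ R G p k a⁻¹ y → R G p k (a * y) a :=
    fun a y h1 h2 => R_mul hOra hOrb h hk h1 h2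
  have hinv : ∀ x : A, R G p k x x → R G p k x⁻¹ x⁻¹ := by
    intro x hx
    rw [hself, inv_mem_iff]
    exact (hself x).1 hx
  -- two classes
  obtain ⟨x, hx⟩ : ∃ x : A, x ∉ BB A G p k := by
    by_contra hall
    push Not at hall
    exact ho.2.2.1 hSS (Subgroup.ext fun g => ⟨fun _ => Subgroup.mem_top g, fun _ => hall g⟩)
  obtain ⟨f, hf, hfx⟩ := (hBinf.sdiff (fin_bad hOra hOrb hFrb h hk x x)).nonempty
  have hfB : f ∈ BB A G p k := hf
  have hfx' : ¬ R G p k (f * x) x := fun hr => hfx ⟨hfB, hr⟩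
  have hfx0 : f * x ∉ BB A G p k := fun hm => hx (by
    have := (BB A G p k).mul_mem ((BB A G p k).inv_mem hfB) hm
    rwa [inv_mul_cancel_left] at this)
  -- a hyperbolic element
  obtain ⟨b, hbb, hb0⟩ : ∃ b : A, R G p k b b ∧ ¬ R G p k b b⁻¹ := by
    by_contra hno
    push Not at hno
    have hall : ∀ z : A, R G p k z z → R G p k z z⁻¹ := fun z hz => hno z hz
    have rx := (hself x).2 hx
    have ry := (hself (f * x)).2 hfx0
    have rx' := hall x rx
    have ry' := hall _ ry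
    have n1 : ¬ R G p k (f * x)⁻¹ x := fun h1 => hfx' (htr _ _ _ ry' h1)
    -- `u = (f x) x`
    have r1 := hmul (f * x) x ry n1
    have n2 : ¬ R G p k (x⁻¹)⁻¹ (f * x)⁻¹ := by
      rw [inv_inv]
      intro h1
      exact hfx' (htr _ _ _ ry' (hsy _ _ h1))
    have r2 := hmul x⁻¹ (f * x)⁻¹ (hinv x rx) n2
    have r3 : R G p k (f * x * x) (f * x * x) := htr _ _ _ r1 (hsy _ _ r1)
    have r4 := hall _ r3
    rw [mul_inv_rev (f * x) x] at r4
    exact hfx' (htr _ _ _ (htr _ _ _ (hsy _ _ r1) r4) (htr _ _ _ r2 (hsy _ _ rx')))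
  -- the second generator
  have hbi := hinv b hbb
  obtain ⟨g, hg, hgb⟩ := (hBinf.sdiff
    ((((fin_bad hOra hOrb hFrb h hk b b).union (fin_bad hOra hOrb hFrb h hk b b⁻¹)).union
      (fin_bad hOra hOrb hFrb h hk b⁻¹ b)).union (fin_bad hOra hOrb hFrb h hk b⁻¹ b⁻¹))).nonempty
  have hgB : g ∈ BB A G p k := hg
  refine hF (pingpong (fun x y => R G p k x y) hsy htr hmul g
    (fun x y => R_smul_iff hOrb h hk hgB) b hbb hbi hb0 ?_ ?_ ?_ ?_)
  · exact fun hr => hgb (Or.inl (Or.inl (Or.inl ⟨hgB, hr⟩)))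
  · exact fun hr => hgb (Or.inl (Or.inl (Or.inr ⟨hgB, hr⟩)))
  · exact fun hr => hgb (Or.inl (Or.inr ⟨hgB, hr⟩))
  · exact fun hr => hgb (Or.inr ⟨hgB, hr⟩)

end Pool.Agent.Helper39.NF
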